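import Pool.Agent.K3h43.NWS.Lin
import Pool.Agent.K3h63.CC.Kill

/-!
# The operator on tensor powers and the weights of the derivations
-/

set_option autoImplicit false
set_option linter.unusedSectionVars false
set_option linter.unusedSimpArgs false
set_option backward.isDefEq.respectTransparency false
set_option backward.defeqAttrib.useBackward true

open CategoryTheory Limits MonoidalCategory
open Pool.Agent.Y112.SR Pool.Agent.Y112.KD Pool.Agent.Y112.SC Pool.Agent.K3h63.CC

namespace Pool.Agent.K3h43.NWS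

universe v u w

open Functor.LaxMonoidal Functor.OplaxMonoidal

section

variable {C : Type u} [Category.{v} C] [Preadditive C] [MonoidalCategory C] [SymmetricCategory C]
  {K : Type w} [Field K] (R : SuperRealisation C K)

/-- The operator on the tensor powers. -/
noncomputable def tw {X : C} (φ : R.H.obj X ⟶ R.H.obj X) :
    ∀ n : ℕ, R.H.obj (tp X n) ⟶ R.H.obj (tp X n)
  | 0 => 𝟙 _
  | n + 1 => bx R (tw φ n) φ

lemma tw_zero {X : C} (φ : R.H.obj X ⟶ R.H.obj X) : tw R φ 0 = 𝟙 _ := rfl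

lemma tw_succ {X : C} (φ : R.H.obj X ⟶ R.H.obj X) (n : ℕ) :
    tw R φ (n + 1) = bx R (tw R φ n) φ := rfl

lemma bx_hom_pow {Q X : C} (a : R.H.obj Q ⟶ R.H.obj Q) (b : R.H.obj X ⟶ R.H.obj X) (N : ℕ) :
    ((bx R a b).hom : Module.End K (R.H.obj (Q ⊗ X))) ^ N =
      (bx R (ModuleCat.ofHom ((a.hom : Module.End K (R.H.obj Q)) ^ N))
        (ModuleCat.ofHom ((b.hom : Module.End K (R.H.obj X)) ^ N))).hom := by
  induction N with
  | zero =>
    rw [pow_zero, pow_zero, pow_zero]
    have h1 : (ModuleCat.ofHom (1 : Module.End K (R.H.obj Q)) : R.H.obj Q ⟶ R.H.obj Q) = 𝟙 _ := rfl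
    have h2 : (ModuleCat.ofHom (1 : Module.End K (R.H.obj X)) : R.H.obj X ⟶ R.H.obj X) = 𝟙 _ := rfl
    rw [h1, h2, bx_one]
    rfl
  | succ N ih =>
    rw [pow_succ, ih]
    change (bx R a b ≫ bx R _ _).hom = _
    rw [bx_comp]
    congr 1

lemma bx_nil_left {Q X : C} {a : R.H.obj Q ⟶ R.H.obj Q} (b : R.H.obj X ⟶ R.H.obj X)
    (ha : IsNilpotent (a.hom : Module.End K (R.H.obj Q))) :
    IsNilpotent ((bx R a b).hom : Module.End K (R.H.obj (Q ⊗ X))) := by
  obtain ⟨N, hN⟩ := ha
  refine ⟨N, ?_⟩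
  rw [bx_hom_pow, hN]
  have h1 : (ModuleCat.ofHom (0 : Module.End K (R.H.obj Q)) : R.H.obj Q ⟶ R.H.obj Q) = 0 := rfl
  rw [h1, bx_zero_left]
  rfl

lemma bx_nil_right {Q X : C} (a : R.H.obj Q ⟶ R.H.obj Q) {b : R.H.obj X ⟶ R.H.obj X}
    (hb : IsNilpotent (b.hom : Module.End K (R.H.obj X))) :
    IsNilpotent ((bx R a b).hom : Module.End K (R.H.obj (Q ⊗ X))) := by
  obtain ⟨N, hN⟩ := hb
  refine ⟨N, ?_⟩
  rw [bx_hom_pow, hN]
  have h1 : (ModuleCat.ofHom (0 : Module.End K (R.H.obj X)) : R.H.obj X ⟶ R.H.obj X) = 0 := rfl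
  rw [h1, bx_zero_right]
  rfl

lemma bx_commute {Q X : C} {a c : R.H.obj Q ⟶ R.H.obj Q} {b d : R.H.obj X ⟶ R.H.obj X}
    (h1 : a ≫ c = c ≫ a) (h2 : b ≫ d = d ≫ b) :
    Commute ((bx R a b).hom : Module.End K (R.H.obj (Q ⊗ X))) (bx R c d).hom := by
  change (bx R c d ≫ bx R a b).hom = (bx R a b ≫ bx R c d).hom
  rw [bx_comp, bx_comp, h1, h2]

/-- A decomposition with respect to an operator. -/
structure Dec {X : C} (φ : R.H.obj X ⟶ R.H.obj X) where
  d : ℕ
  π : Fin d → (R.H.obj X ⟶ R.H.obj X)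
  x : Fin d → K
  s : Fin d → Bool
  idem : ∀ j, π j ≫ π j = π j
  orth : ∀ i j, i ≠ j → π i ≫ π j = 0
  sum : ∑ j, π j = 𝟙 _
  ne : ∀ j, π j ≠ 0
  comm : ∀ j, π j ≫ φ = φ ≫ π j
  par_pi : ∀ j, R.par X ≫ π j = (if s j then (-1 : K) else 1) • π j
  pi_par : ∀ j, π j ≫ R.par X = (if s j then (-1 : K) else 1) • π j
  nil : ∀ j, IsNilpotent ((π j ≫ φ - x j • π j).hom : Module.End K (R.H.obj X))

lemma Dec.exists [IsAlgClosed K] [CharZero K] {X : C} {φ : R.H.obj X ⟶ R.H.obj X}
    (h : φ ≫ R.par X = R.par X ≫ φ) : Nonempty (Dec R φ) := by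
  obtain ⟨d, π, x, s, h1, h2, h3, h4, h5, h6, h7, h8⟩ :=
    exists_decM (R.finite X) φ (R.par X) (R.par_sq X) h
  exact ⟨⟨d, π, x, s, h1, h2, h3, h4, h5, h6, h7, h8⟩⟩

variable {R}

/-- A decomposition of the tensor powers. -/
structure Fam {X : C} {φ : R.H.obj X ⟶ R.H.obj X} (D : Dec R φ) (n : ℕ) where
  ι : Type
  fin : Fintype ι
  e : ι → (R.H.obj (tp X n) ⟶ R.H.obj (tp X n))
  m : ι → Fin D.d → ℕ
  idem : ∀ k, e k ≫ e k = e k
  orth : ∀ k l, k ≠ l → e k ≫ e l = 0
  sum : ∑ k, e k = 𝟙 _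
  der_e : ∀ k j, der R false (D.π j) n ≫ e k = (m k j : K) • e k
  e_der : ∀ k j, e k ≫ der R false (D.π j) n = (m k j : K) • e k
  sum_m : ∀ k, ∑ j, m k j = n
  comm : ∀ k, e k ≫ tw R φ n = tw R φ n ≫ e k
  nil : ∀ k, IsNilpotent ((e k ≫ tw R φ n - (∏ j, D.x j ^ m k j) • e k).hom :
    Module.End K (R.H.obj (tp X n)))

attribute [instance] Fam.fin

lemma Fam.exists [CharZero K] {X : C} {φ : R.H.obj X ⟶ R.H.obj X} (D : Dec R φ) (n : ℕ) :
    Nonempty (Fam D n) := by
  classical
  induction n with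
  | zero =>
    refine ⟨⟨Unit, inferInstance, fun _ => 𝟙 _, fun _ _ => 0, fun _ => Category.comp_id _,
      fun k l h => absurd (Subsingleton.elim k l) h, by simp, fun k j => ?_, fun k j => ?_,
      fun k => by simp, fun k => ?_, fun k => ?_⟩⟩
    · rw [der_zero]
      simp
    · rw [der_zero]
      simp
    · rw [Category.id_comp, Category.comp_id]
    · refine ⟨1, ?_⟩
      rw [pow_one, tw_zero, Category.id_comp]
      simp
  | succ n ih =>
    obtain ⟨F⟩ := ih
    refine ⟨⟨F.ι × Fin D.d, inferInstance,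
      fun k => bx R (Q := tp X n) (X := X) (F.e k.1) (D.π k.2),
      fun k j => F.m k.1 j + if j = k.2 then 1 else 0, fun k => ?_, fun k l h => ?_, ?_,
      fun k j => ?_, fun k j => ?_, fun k => ?_, fun k => ?_, fun k => ?_⟩⟩
    · rw [bx_comp, F.idem, D.idem]
    · rw [bx_comp]
      by_cases hk : k.1 = l.1
      · have hk' : k.2 ≠ l.2 := fun h' => h (Prod.ext hk h')
        rw [D.orth _ _ hk', bx_zero_right]
      · rw [F.orth _ _ hk, bx_zero_left]
    · rw [Fintype.sum_prod_type]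
      have h4 : ∀ k, ∑ i, bx R (Q := tp X n) (X := X) (F.e k) (D.π i) = bx R (F.e k) (𝟙 _) := by
        intro k
        rw [bx_sum_right, D.sum]
      simp only [h4]
      rw [bx_sum_left, F.sum, bx_one]
    · rw [der_succ, sg_false, Preadditive.add_comp, bx_comp, bx_comp, F.der_e, Category.id_comp,
        Category.id_comp, bx_smul_left]
      by_cases hj : j = k.2
      · subst hj
        rw [D.idem, if_pos rfl]
        push_cast
        rw [add_smul, one_smul]
      · rw [D.orth _ _ hj, if_neg hj, bx_zero_right, add_zero, add_zero]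
    · rw [der_succ, sg_false, Preadditive.comp_add, bx_comp, bx_comp, F.e_der, Category.comp_id,
        Category.comp_id, bx_smul_left]
      by_cases hj : j = k.2
      · subst hj
        rw [D.idem, if_pos rfl]
        push_cast
        rw [add_smul, one_smul]
      · rw [D.orth _ _ (Ne.symm hj), if_neg hj, bx_zero_right, add_zero, add_zero]
    · rw [Finset.sum_add_distrib, F.sum_m, Finset.sum_ite_eq' Finset.univ k.2]
      simp
    · rw [tw_succ, bx_comp, bx_comp, F.comm, D.comm]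
    · have hprod : ∏ j, D.x j ^ (F.m k.1 j + if j = k.2 then 1 else 0) =
          (∏ j, D.x j ^ F.m k.1 j) * D.x k.2 := by
        simp only [pow_add]
        rw [Finset.prod_mul_distrib]
        congr 1
        rw [Finset.prod_eq_single k.2]
        · rw [if_pos rfl, pow_one]
        · intro j _ hj
          rw [if_neg hj, pow_zero]
        · intro h
          exact absurd (Finset.mem_univ _) h
      rw [hprod]
      set lam := ∏ j, D.x j ^ F.m k.1 j with hlam
      have e1 : bx R (F.e k.1) (D.π k.2) ≫ tw R φ (n + 1) -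
          (lam * D.x k.2) • bx R (F.e k.1) (D.π k.2) =
          bx R (F.e k.1 ≫ tw R φ n - lam • F.e k.1) (D.π k.2 ≫ φ) +
          bx R (lam • F.e k.1) (D.π k.2 ≫ φ - D.x k.2 • D.π k.2) := by
        rw [tw_succ, bx_comp, bx_sub_left, bx_sub_right, bx_smul_left, bx_smul_left,
          bx_smul_right, smul_smul]
        abel
      rw [e1]
      rw [ModuleCat.hom_add]
      refine Commute.isNilpotent_add ?_ (bx_nil_left R _ (F.nil k.1)) (bx_nil_right R _ (D.nil k.2))
      apply bx_commute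
      · rw [Linear.comp_smul, Linear.smul_comp, Preadditive.sub_comp, Preadditive.comp_sub,
          Category.assoc, ← F.comm, ← Category.assoc, F.idem, Linear.smul_comp, Linear.comp_smul]
      · rw [Preadditive.comp_sub, Preadditive.sub_comp, Linear.smul_comp, Linear.comp_smul,
          Category.assoc, Category.assoc, ← D.comm, ← Category.assoc (D.π _) (D.π _),
          D.idem]

end

end Pool.Agent.K3h43.NWS
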