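import Pool.Agent.K3h63.CC.Lin

/-!
# Decomposition with respect to an operator and a commuting involution
-/

set_option autoImplicit false
set_option linter.style.haveILetI false

open Polynomial

namespace Pool.Agent.K3h43.NWS

section

variable {K : Type*} [Field K] [IsAlgClosed K] {V : Type*} [AddCommGroup V] [Module K V]
  [FiniteDimensional K V]

open Classical in
/-- the projectors to the generalised eigenspaces -/
theorem exists_rho (f : Module.End K V) :
    ∃ (t : Finset K) (ρ : K → Module.End K V), (∑ x ∈ t, ρ x = 1) ∧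
      (∀ x ∈ t, ∀ y ∈ t, x ≠ y → ρ x * ρ y = 0) ∧
      (∀ x ∈ t, ∃ N : ℕ, (f - algebraMap K _ x) ^ N * ρ x = 0) ∧
      ∀ x, ∃ P : K[X], ρ x = aeval f P := by
  set P := minpoly K f with hP
  have hmonic : P.Monic := minpoly.monic (Algebra.IsIntegral.isIntegral f)
  have hsplit : P.Splits := IsAlgClosed.splits P
  let t := P.roots.toFinset
  let s : K → K[X] := fun x => (X - C x) ^ P.roots.count x
  have hprod : ∏ x ∈ t, s x = P := by
    have h1 := hsplit.eq_prod_roots_of_monic hmonic
    conv_rhs => rw [h1]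
    rw [Finset.prod_multiset_map_count]
  by_cases ht : t.Nonempty
  · have hcop : Pairwise (Function.onFun IsCoprime fun i : t => s i) := by
      intro i j hij
      have h1 : IsCoprime (X - C (i : K)) (X - C (j : K)) :=
        pairwise_coprime_X_sub_C (K := K) Function.injective_id (fun h => hij (Subtype.ext h))
      exact h1.pow
    obtain ⟨μ, hμ⟩ := (exists_sum_eq_one_iff_pairwise_coprime ht).mpr hcop
    refine ⟨t, fun x => aeval f (μ x * ∏ j ∈ t \ {x}, s j), ?_, ?_, ?_, fun x => ⟨_, rfl⟩⟩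
    · rw [← map_sum, hμ, map_one]
    · intro x hx y hy hxy
      rw [← map_mul]
      have h1 : P ∣ (μ x * ∏ j ∈ t \ {x}, s j) * (μ y * ∏ j ∈ t \ {y}, s j) := by
        rw [← hprod]
        have h2 : ∏ j ∈ t, s j = s x * ∏ j ∈ t \ {x}, s j := by
          rw [← Finset.erase_eq, Finset.mul_prod_erase t s hx]
        have h3 : s x ∣ ∏ j ∈ t \ {y}, s j :=
          Finset.dvd_prod_of_mem _ (Finset.mem_sdiff.mpr ⟨hx, by simpa using hxy⟩)
        rw [h2, mul_comm (s x)]
        exact mul_dvd_mul (Dvd.intro_left _ rfl) (h3.mul_left _)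
      obtain ⟨Q, hQ⟩ := h1
      rw [hQ, map_mul, hP, minpoly.aeval, zero_mul]
    · intro x hx
      refine ⟨P.roots.count x, ?_⟩
      have h1 : (f - algebraMap K _ x) ^ P.roots.count x = aeval f (s x) := by
        rw [map_pow, map_sub, aeval_X, aeval_C]
      have h2 : ∏ j ∈ t, s j = s x * ∏ j ∈ t \ {x}, s j := by
        rw [← Finset.erase_eq, Finset.mul_prod_erase t s hx]
      rw [h1, ← map_mul, mul_left_comm, ← h2, hprod, map_mul, hP, minpoly.aeval, mul_zero]
  · rw [Finset.not_nonempty_iff_eq_empty] at ht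
    have h1 : P = 1 := by rw [← hprod, ht, Finset.prod_empty]
    have h2 : (1 : Module.End K V) = 0 := by
      have h3 := minpoly.aeval K f
      rw [← hP, h1, map_one] at h3
      exact h3
    refine ⟨∅, fun _ => 0, ?_, by simp, by simp, fun x => ⟨0, by simp⟩⟩
    rw [Finset.sum_empty, h2]

/-- The decomposition with respect to `f` and the involution `p`. -/
theorem exists_dec [CharZero K] (f p : Module.End K V) (hp : p * p = 1) (hfp : f * p = p * f) :
    ∃ (d : ℕ) (π : Fin d → Module.End K V) (x : Fin d → K) (s : Fin d → Bool),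
      (∀ j, π j * π j = π j) ∧ (∀ i j, i ≠ j → π i * π j = 0) ∧ (∑ j, π j = 1) ∧
      (∀ j, π j ≠ 0) ∧ (∀ j, π j * f = f * π j) ∧
      (∀ j, p * π j = (if s j then (-1 : K) else 1) • π j) ∧
      (∀ j, π j * p = (if s j then (-1 : K) else 1) • π j) ∧
      ∀ j, ∃ N : ℕ, (f - algebraMap K _ (x j)) ^ N * π j = 0 := by
  classical
  obtain ⟨t, ρ, h1, h2, h3, h4⟩ := exists_rho f
  have h2' : (2 : K) ≠ 0 := two_ne_zero
  let ε : Bool → K := fun b => if b then (-1 : K) else 1
  have hε : ∀ b, ε b * ε b = 1 := by intro b; cases b <;> simp [ε]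
  let e : Bool → Module.End K V := fun b => (2⁻¹ : K) • (1 + ε b • p)
  have he : ∀ b, e b * e b = e b := by
    intro b
    have h5 : (1 + ε b • p) * (1 + ε b • p) = (2 : K) • (1 + ε b • p) := by
      have h6 : (ε b • p) * (ε b • p) = 1 := by
        rw [smul_mul_smul_comm, hp, hε, one_smul]
      rw [two_smul, add_mul, mul_add, mul_add, h6]
      simp only [one_mul, mul_one]
      abel
    simp only [e]
    rw [smul_mul_smul_comm, h5, smul_smul]
    congr 1
    field_simp
  have heo : ∀ b c, b ≠ c → e b * e c = 0 := by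
    intro b c hbc
    have h7 : ε c = - ε b := by cases b <;> cases c <;> simp_all [ε]
    have h5 : (1 + ε b • p) * (1 + ε c • p) = 0 := by
      have h6 : (ε b • p) * (ε c • p) = -1 := by
        rw [smul_mul_smul_comm, hp, h7, mul_neg, hε, neg_one_smul]
      rw [add_mul, mul_add, mul_add, h6, h7]
      simp only [one_mul, mul_one, neg_smul]
      abel
    simp only [e]
    rw [smul_mul_smul_comm, h5, smul_zero]
  have hes : ∑ b, e b = 1 := by
    rw [Fintype.sum_bool]
    have e1 : e true = (2⁻¹ : K) • (1 - p) := by simp [e, ε, sub_eq_add_neg]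
    have e2 : e false = (2⁻¹ : K) • (1 + p) := by simp [e, ε]
    rw [e1, e2, ← smul_add]
    have h5 : (1 - p) + (1 + p) = (2 : K) • (1 : Module.End K V) := by
      rw [two_smul]
      abel
    rw [h5, smul_smul, inv_mul_cancel₀ h2', one_smul]
  have hpe : ∀ b, p * e b = ε b • e b := by
    intro b
    have e1 : p * e b = (2⁻¹ : K) • (p + ε b • 1) := by
      simp only [e]
      rw [mul_smul_comm, mul_add, mul_one, mul_smul_comm, hp]
    have e2 : ε b • e b = (2⁻¹ : K) • (ε b • 1 + p) := by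
      simp only [e]
      rw [smul_comm, smul_add, smul_smul, hε, one_smul]
    rw [e1, e2, add_comm]
  have hep : ∀ b, e b * p = ε b • e b := by
    intro b
    have e1 : e b * p = (2⁻¹ : K) • (p + ε b • 1) := by
      simp only [e]
      rw [smul_mul_assoc, add_mul, one_mul, smul_mul_assoc, hp]
    have e2 : ε b • e b = (2⁻¹ : K) • (ε b • 1 + p) := by
      simp only [e]
      rw [smul_comm, smul_add, smul_smul, hε, one_smul]
    rw [e1, e2, add_comm]
  have hfe : ∀ b, f * e b = e b * f := by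
    intro b
    simp only [e]
    rw [mul_smul_comm, smul_mul_assoc, mul_add, add_mul, mul_smul_comm, smul_mul_assoc, hfp,
      mul_one, one_mul]
  have hρ : ∀ (x : K) (g : Module.End K V), f * g = g * f → ρ x * g = g * ρ x := by
    intro x g hg
    obtain ⟨P, hP⟩ := h4 x
    rw [hP]
    have h6 : aeval f P ∈ Algebra.adjoin K ({f} : Set (Module.End K V)) :=
      Polynomial.aeval_mem_adjoin_singleton K f
    have h7 : Commute g f := hg.symm
    exact (Algebra.commute_of_mem_adjoin_singleton_of_commute h6 h7).symm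
  have hρf : ∀ x, ρ x * f = f * ρ x := fun x => hρ x f rfl
  let T := (t ×ˢ (Finset.univ : Finset Bool)).filter (fun a => ρ a.1 * e a.2 ≠ 0)
  let φ : Fin T.card ≃ T := T.equivFin.symm
  have hρi : ∀ x ∈ t, ρ x * ρ x = ρ x := by
    intro x hx
    calc ρ x * ρ x = ρ x * ∑ y ∈ t, ρ y := by
          rw [Finset.mul_sum, Finset.sum_eq_single x]
          · intro y hy hyx
            exact h2 x hx y hy (Ne.symm hyx)
          · intro h
            exact absurd hx h
      _ = ρ x := by rw [h1, mul_one]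
  have hc : ∀ x b, ρ x * e b = e b * ρ x := fun x b => hρ x _ (hfe b)
  have hmem : ∀ a : T, a.1.1 ∈ t := fun a =>
    (Finset.mem_product.mp (Finset.mem_filter.mp a.2).1).1
  refine ⟨T.card, fun j => ρ (φ j).1.1 * e (φ j).1.2, fun j => (φ j).1.1, fun j => (φ j).1.2,
    ?_, ?_, ?_, ?_, ?_, ?_, ?_, ?_⟩
  · intro j
    have h5 : ρ (φ j).1.1 * e (φ j).1.2 * (ρ (φ j).1.1 * e (φ j).1.2) =
        (ρ (φ j).1.1 * ρ (φ j).1.1) * (e (φ j).1.2 * e (φ j).1.2) := by
      rw [mul_assoc, ← mul_assoc (e _) (ρ _), ← hc, mul_assoc, mul_assoc]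
    rw [h5, he, hρi _ (hmem _)]
  · intro i j hij
    have h5 : ρ (φ i).1.1 * e (φ i).1.2 * (ρ (φ j).1.1 * e (φ j).1.2) =
        (ρ (φ i).1.1 * ρ (φ j).1.1) * (e (φ i).1.2 * e (φ j).1.2) := by
      rw [mul_assoc, ← mul_assoc (e _) (ρ _), ← hc, mul_assoc, mul_assoc]
    rw [h5]
    by_cases h6 : (φ i).1.1 = (φ j).1.1
    · have h7 : (φ i).1.2 ≠ (φ j).1.2 := by
        intro h8
        exact hij (φ.injective (Subtype.ext (Prod.ext h6 h8)))
      rw [heo _ _ h7, mul_zero]
    · rw [h2 _ (hmem _) _ (hmem _) h6, zero_mul]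
  · rw [Equiv.sum_comp φ (fun a : T => ρ a.1.1 * e a.1.2), Finset.sum_coe_sort T
      (fun a : K × Bool => ρ a.1 * e a.2), Finset.sum_filter_ne_zero, Finset.sum_product]
    simp only [← Finset.mul_sum, hes, mul_one]
    exact h1
  · intro j
    exact (Finset.mem_filter.mp (φ j).2).2
  · intro j
    rw [mul_assoc, ← hfe, ← mul_assoc, hρf, mul_assoc]
  · intro j
    rw [← mul_assoc, ← hρ _ p hfp, mul_assoc, hpe, mul_smul_comm]
  · intro j
    rw [mul_assoc, hep, mul_smul_comm]
  · intro j
    obtain ⟨N, hN⟩ := h3 _ (hmem (φ j))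
    exact ⟨N, by rw [← mul_assoc, hN, zero_mul]⟩

end

section

universe w

open CategoryTheory

variable {K : Type w} [Field K] [IsAlgClosed K] [CharZero K]

/-- The decomposition in the category of modules. -/
theorem exists_decM {V : ModuleCat.{w} K} (hV : Module.Finite K V) (f p : V ⟶ V)
    (hp : p ≫ p = 𝟙 V) (hfp : f ≫ p = p ≫ f) :
    ∃ (d : ℕ) (π : Fin d → (V ⟶ V)) (x : Fin d → K) (s : Fin d → Bool),
      (∀ j, π j ≫ π j = π j) ∧ (∀ i j, i ≠ j → π i ≫ π j = 0) ∧ (∑ j, π j = 𝟙 V) ∧
      (∀ j, π j ≠ 0) ∧ (∀ j, π j ≫ f = f ≫ π j) ∧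
      (∀ j, p ≫ π j = (if s j then (-1 : K) else 1) • π j) ∧
      (∀ j, π j ≫ p = (if s j then (-1 : K) else 1) • π j) ∧
      ∀ j, IsNilpotent (π j ≫ f - x j • π j).hom := by
  obtain ⟨d, π, x, s, h1, h2, h3, h4, h5, h6, h7, h8⟩ := exists_dec (K := K) (V := V) f.hom p.hom
    (by
      have := congrArg ModuleCat.Hom.hom hp
      exact this)
    (by
      have := congrArg ModuleCat.Hom.hom hfp
      exact this.symm)
  refine ⟨d, fun j => ModuleCat.ofHom (π j), x, s, ?_, ?_, ?_, ?_, ?_, ?_, ?_, ?_⟩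
  · intro j
    apply ModuleCat.hom_ext
    exact h1 j
  · intro i j hij
    apply ModuleCat.hom_ext
    exact h2 j i (Ne.symm hij)
  · apply ModuleCat.hom_ext
    rw [ModuleCat.hom_sum]
    exact h3
  · intro j hj
    exact h4 j (congrArg ModuleCat.Hom.hom hj)
  · intro j
    apply ModuleCat.hom_ext
    exact (h5 j).symm
  · intro j
    apply ModuleCat.hom_ext
    exact h7 j
  · intro j
    apply ModuleCat.hom_ext
    exact h6 j
  · intro j
    obtain ⟨N, hN⟩ := h8 j
    have e1 : (ModuleCat.ofHom (π j) ≫ f - x j • ModuleCat.ofHom (π j)).hom =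
        (f.hom - algebraMap K (Module.End K V) (x j)) * π j := by
      rw [sub_mul, Algebra.algebraMap_eq_smul_one, smul_mul_assoc, one_mul]
      rfl
    have hc : Commute (f.hom - algebraMap K (Module.End K V) (x j)) (π j) := by
      have h9 : Commute (f.hom : Module.End K V) (π j) := (h5 j).symm
      exact h9.sub_left (Algebra.commute_algebraMap_left _ _)
    rw [e1]
    refine ⟨N + 1, ?_⟩
    set g : Module.End K V := f.hom - algebraMap K (Module.End K V) (x j) with hg
    have e2 : g ^ (N + 1) * π j ^ (N + 1) = g * (g ^ N * π j) * π j ^ N := by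
      rw [pow_succ' g, pow_succ' (π j)]
      simp only [mul_assoc]
    rw [hc.mul_pow, e2, hN, mul_zero, zero_mul]

end

end Pool.Agent.K3h43.NWS
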