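import Pool.Agent.K3h43.NWS.Core

/-!
# The off-diagonal derivations vanish and the weights are proportional to the dimensions
-/

set_option autoImplicit false
set_option linter.unusedSectionVars false
set_option linter.unusedSimpArgs false
set_option backward.isDefEq.respectTransparency false
set_option backward.defeqAttrib.useBackward true

open CategoryTheory Limits MonoidalCategory
open Pool.Agent.Y112.SR Pool.Agent.Y112.KD Pool.Agent.Y112.SC Pool.Agent.K3h63.CC

namespace Pool.Agent.K3h43.NWS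

universe v u w

section

variable {C : Type u} [Category.{v} C] [Preadditive C] [MonoidalCategory C] [SymmetricCategory C]
  {K : Type w} [Field K] [CharZero K] {R : SuperRealisation C K}
  {X : C} {φ : R.H.obj X ⟶ R.H.obj X} (D : Dec R φ)

lemma Dec.isPar (i : Fin D.d) : IsPar R false (D.π i) := by
  change _ ≫ _ = _ ≫ _
  rw [D.par_pi, D.pi_par]

lemma Dec.isPar_off (i j : Fin D.d) (a : R.H.obj X ⟶ R.H.obj X) :
    IsPar R (xor (D.s i) (D.s j)) (D.π i ≫ a ≫ D.π j) := by
  have h1 : (D.π i ≫ a ≫ D.π j) ≫ R.par X = (if D.s j then (-1 : K) else 1) •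
      (D.π i ≫ a ≫ D.π j) := by
    rw [Category.assoc, Category.assoc, D.pi_par, Linear.comp_smul, Linear.comp_smul]
  have h2 : R.par X ≫ (D.π i ≫ a ≫ D.π j) = (if D.s i then (-1 : K) else 1) •
      (D.π i ≫ a ≫ D.π j) := by
    rw [← Category.assoc, D.par_pi, Linear.smul_comp]
  rcases hi : D.s i with _ | _ <;> rcases hj : D.s j with _ | _ <;>
    rw [hj] at h1 <;> rw [hi] at h2
  · change _ ≫ _ = _ ≫ _
    rw [h1, h2]
  · change _ ≫ _ = -(_ ≫ _)
    rw [h1, h2]
    simp
  · change _ ≫ _ = -(_ ≫ _)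
    rw [h1, h2]
    simp
  · change _ ≫ _ = _ ≫ _
    rw [h1, h2]

/-- The eigenvalue attached to a member of the family. -/
noncomputable def Fam.lam {D : Dec R φ} {n : ℕ} (F : Fam D n) (k : F.ι) : K :=
  ∏ j, D.x j ^ F.m k j

variable {D} {n : ℕ} (F : Fam D n) {q : R.H.obj (tp X n) ⟶ R.H.obj (tp X n)}

lemma Fam.zero_of {Y : R.H.obj (tp X n) ⟶ R.H.obj (tp X n)}
    (h : ∀ k l, F.e k ≫ Y ≫ F.e l = 0) : Y = 0 := by
  calc Y = 𝟙 _ ≫ Y ≫ 𝟙 _ := by rw [Category.id_comp, Category.comp_id]
    _ = 0 := by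
      rw [← F.sum, Preadditive.sum_comp]
      refine Finset.sum_eq_zero fun k _ => ?_
      rw [Preadditive.comp_sum, Preadditive.comp_sum]
      exact Finset.sum_eq_zero fun l _ => h k l

/-- The off-diagonal operators are killed. -/
lemma off (hcomm : ∀ (s : Bool) (a : R.H.obj X ⟶ R.H.obj X), IsPar R s a →
      der R s a n ≫ q = q ≫ der R s a n) {G₀ : Type*} [CommGroupWithZero G₀]
    (N : K →*₀ G₀) (hx : ∀ j, D.x j ≠ 0) {c : G₀}
    (h1 : ∀ k, F.e k ≫ q ≠ 0 → N (F.lam k) = c) (h2 : ∀ k, q ≫ F.e k ≠ 0 → N (F.lam k) = c)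
    {i j : Fin D.d} (hij : N (D.x i) ≠ N (D.x j)) (a : R.H.obj X ⟶ R.H.obj X) :
    q ≫ der R (xor (D.s i) (D.s j)) (D.π i ≫ a ≫ D.π j) n = 0 := by
  classical
  set s := xor (D.s i) (D.s j) with hs
  set A := D.π i ≫ a ≫ D.π j with hA
  have hpA : IsPar R s A := D.isPar_off i j a
  apply F.zero_of
  intro k l
  by_contra hne
  have hk : F.e k ≫ q ≠ 0 := by
    intro h
    apply hne
    rw [Category.assoc, ← Category.assoc, h, zero_comp]
  have hl : q ≫ F.e l ≠ 0 := by
    intro h
    apply hne
    rw [← hcomm s A hpA, Category.assoc, h, comp_zero, comp_zero]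
  have hw : ∀ t, F.m l t + (if t = i then 1 else 0) = F.m k t + (if t = j then 1 else 0) := by
    intro t
    have e1 : A ≫ D.π t - D.π t ≫ A =
        ((if t = j then (1 : K) else 0) - (if t = i then (1 : K) else 0)) • A := by
      have e2 : A ≫ D.π t = (if t = j then (1 : K) else 0) • A := by
        rw [hA, Category.assoc, Category.assoc]
        by_cases h : t = j
        · rw [h, D.idem, if_pos rfl, one_smul]
        · rw [D.orth _ _ (Ne.symm h), if_neg h, comp_zero, comp_zero, zero_smul]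
      have e3 : D.π t ≫ A = (if t = i then (1 : K) else 0) • A := by
        rw [hA, ← Category.assoc]
        by_cases h : t = i
        · rw [h, D.idem, if_pos rfl, one_smul]
        · rw [D.orth _ _ h, if_neg h, zero_comp, zero_smul]
      rw [e2, e3, sub_smul]
    have e4 := der_comm R (s := s) (a := A) (D.isPar t) n
    rw [e1, der_smul] at e4
    have e5 : ((if t = j then (1 : K) else 0) - (if t = i then (1 : K) else 0)) •
        (F.e k ≫ (q ≫ der R s A n) ≫ F.e l) =
        ((F.m l t : K) - F.m k t) • (F.e k ≫ (q ≫ der R s A n) ≫ F.e l) := by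
      calc ((if t = j then (1 : K) else 0) - (if t = i then (1 : K) else 0)) •
            (F.e k ≫ (q ≫ der R s A n) ≫ F.e l)
          = F.e k ≫ (q ≫ (((if t = j then (1 : K) else 0) - (if t = i then (1 : K) else 0)) •
              der R s A n)) ≫ F.e l := by
            rw [Linear.comp_smul, Linear.smul_comp, Linear.comp_smul]
        _ = F.e k ≫ q ≫ der R s A n ≫ der R false (D.π t) n ≫ F.e l -
            F.e k ≫ (q ≫ der R false (D.π t) n) ≫ der R s A n ≫ F.e l := by
            rw [e4]
            simp only [Preadditive.comp_sub, Preadditive.sub_comp, Category.assoc]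
        _ = ((F.m l t : K) - F.m k t) • (F.e k ≫ (q ≫ der R s A n) ≫ F.e l) := by
            rw [F.der_e, ← hcomm false _ (D.isPar t), Category.assoc,
              ← Category.assoc (F.e k) (der R false (D.π t) n), F.e_der, sub_smul]
            simp only [Linear.comp_smul, Linear.smul_comp, Category.assoc]
    have e6 := smul_left_injective K hne e5
    have e7 : (((F.m l t + (if t = i then 1 else 0) : ℕ)) : K) =
        ((F.m k t + (if t = j then 1 else 0) : ℕ) : K) := by
      push_cast
      linear_combination -e6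
    exact_mod_cast e7
  have hprod : F.lam l * D.x i = F.lam k * D.x j := by
    have g : ∀ (f : Fin D.d → ℕ) (i : Fin D.d), (∏ t, D.x t ^ f t) * D.x i =
        ∏ t, D.x t ^ (f t + if t = i then 1 else 0) := by
      intro f i
      simp only [pow_add]
      rw [Finset.prod_mul_distrib]
      congr 1
      rw [Finset.prod_eq_single i]
      · rw [if_pos rfl, pow_one]
      · intro j _ hj
        rw [if_neg hj, pow_zero]
      · intro h
        exact absurd (Finset.mem_univ _) h
    rw [Fam.lam, Fam.lam, g, g]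
    exact Finset.prod_congr rfl fun t _ => by rw [hw t]
  have hc : c ≠ 0 := by
    rw [← h1 k hk]
    intro h
    rw [map_eq_zero, Fam.lam, Finset.prod_eq_zero_iff] at h
    obtain ⟨t, -, ht⟩ := h
    exact pow_ne_zero _ (hx t) ht
  have h3 := congrArg N hprod
  rw [map_mul, map_mul, h1 k hk, h2 l hl] at h3
  exact hij (mul_left_cancel₀ hc h3)

/-- The consequences of the vanishing of the off-diagonal operators. -/
lemma kill' {i j : Fin D.d}
    (offa : ∀ a, q ≫ der R (xor (D.s i) (D.s j)) (D.π i ≫ a ≫ D.π j) n = 0)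
    (offb : ∀ a, q ≫ der R (xor (D.s j) (D.s i)) (D.π j ≫ a ≫ D.π i) n = 0) :
    tr _ (D.π j) • (q ≫ der R false (D.π i) n) =
      (if D.s i = D.s j then (1 : K) else -1) • tr _ (D.π i) • (q ≫ der R false (D.π j) n) := by
  obtain ⟨κ, _, E, E', hE, hE'⟩ := sandwich (R.finite X)
  have s1 : ∑ k, (D.π i ≫ E k ≫ D.π j) ≫ (D.π j ≫ E' k ≫ D.π i) =
      tr _ (D.π j) • D.π i := by
    have e1 : ∀ k, (D.π i ≫ E k ≫ D.π j) ≫ (D.π j ≫ E' k ≫ D.π i) =
        D.π i ≫ (E k ≫ D.π j ≫ E' k) ≫ D.π i := by
      intro k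
      simp only [Category.assoc]
      rw [← Category.assoc (D.π j) (D.π j), D.idem]
    simp only [e1]
    rw [← Preadditive.comp_sum, ← Preadditive.sum_comp, hE, Linear.smul_comp, Category.id_comp,
      Linear.comp_smul, D.idem]
  have s2 : ∑ k, (D.π j ≫ E' k ≫ D.π i) ≫ (D.π i ≫ E k ≫ D.π j) =
      tr _ (D.π i) • D.π j := by
    have e1 : ∀ k, (D.π j ≫ E' k ≫ D.π i) ≫ (D.π i ≫ E k ≫ D.π j) =
        D.π j ≫ (E' k ≫ D.π i ≫ E k) ≫ D.π j := by
      intro k
      simp only [Category.assoc]
      rw [← Category.assoc (D.π i) (D.π i), D.idem]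
    simp only [e1]
    rw [← Preadditive.comp_sum, ← Preadditive.sum_comp, hE', Linear.smul_comp, Category.id_comp,
      Linear.comp_smul, D.idem]
  have hpa := fun a => D.isPar_off i j a
  have hpb := fun a => D.isPar_off j i a
  by_cases hsgn : D.s i = D.s j
  · have hx1 : xor (D.s i) (D.s j) = false := by rw [hsgn]; simp
    have hx2 : xor (D.s j) (D.s i) = false := by rw [hsgn]; simp
    rw [hx1] at offa hpa
    rw [hx2] at offb hpb
    rw [if_pos hsgn, one_smul, ← sub_eq_zero, ← Linear.comp_smul, ← Linear.comp_smul,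
      ← Preadditive.comp_sub, ← der_smul, ← der_smul]
    have h5 : der R false (tr _ (D.π j) • D.π i) n -
        der R false (tr _ (D.π i) • D.π j) n =
        ∑ k, (der R false (D.π i ≫ E k ≫ D.π j) n ≫
          der R false (D.π j ≫ E' k ≫ D.π i) n -
          der R false (D.π j ≫ E' k ≫ D.π i) n ≫
          der R false (D.π i ≫ E k ≫ D.π j) n) := by
      rw [← derL_apply, ← derL_apply, ← map_sub, ← s1, ← s2, ← Finset.sum_sub_distrib, map_sum]
      refine Finset.sum_congr rfl fun k _ => ?_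
      rw [derL_apply, der_comm R (s := false) (a := D.π i ≫ E k ≫ D.π j) (hpb (E' k))]
    rw [h5, Preadditive.comp_sum]
    refine Finset.sum_eq_zero fun k _ => ?_
    rw [Preadditive.comp_sub, ← Category.assoc, offa, zero_comp, ← Category.assoc, offb,
      zero_comp, sub_zero]
  · have hx1 : xor (D.s i) (D.s j) = true := by
      cases h1 : D.s i <;> cases h2 : D.s j <;> simp_all
    have hx2 : xor (D.s j) (D.s i) = true := by
      cases h1 : D.s i <;> cases h2 : D.s j <;> simp_all
    rw [hx1] at offa hpa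
    rw [hx2] at offb hpb
    rw [if_neg hsgn, neg_smul, one_smul, eq_neg_iff_add_eq_zero,
      ← Linear.comp_smul, ← Linear.comp_smul,
      ← Preadditive.comp_add, ← der_smul, ← der_smul]
    have h5 : der R false (tr _ (D.π j) • D.π i) n +
        der R false (tr _ (D.π i) • D.π j) n =
        ∑ k, (der R true (D.π i ≫ E k ≫ D.π j) n ≫
          der R true (D.π j ≫ E' k ≫ D.π i) n +
          der R true (D.π j ≫ E' k ≫ D.π i) n ≫
          der R true (D.π i ≫ E k ≫ D.π j) n) := by
      rw [← derL_apply, ← derL_apply, ← map_add, ← s1, ← s2, ← Finset.sum_add_distrib, map_sum]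
      refine Finset.sum_congr rfl fun k _ => ?_
      rw [derL_apply, der_anti R (hpa (E k)) (hpb (E' k))]
    rw [h5, Preadditive.comp_sum]
    refine Finset.sum_eq_zero fun k _ => ?_
    rw [Preadditive.comp_add, ← Category.assoc, offa, zero_comp, ← Category.assoc, offb,
      zero_comp, add_zero]

/-- The action of the operators on the image of `q` in the exceptional case. -/
lemma scal {P : Fin D.d → Fin D.d → Prop} (hpar : ∀ i j, D.s i = D.s j)
    (off : ∀ i j, P i j → ∀ a, q ≫ der R false (D.π i ≫ a ≫ D.π j) n = 0)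
    (hP : ∀ i j, ¬ P i j → ∃ t, P i t ∧ P t j) (hPd : ∀ i, ¬ P i i)
    (hb0 : ∀ j, tr _ (D.π j) ≠ 0) {ν : K}
    (hT : ∀ t, q ≫ der R false (D.π t) n = (ν * tr _ (D.π t)) • q)
    (a : R.H.obj X ⟶ R.H.obj X) : q ≫ der R false a n = (ν * tr _ a) • q := by
  classical
  have key : ∀ i j, q ≫ der R false (D.π i ≫ a ≫ D.π j) n =
      (ν * tr _ (D.π i ≫ a ≫ D.π j)) • q := by
    intro i j
    have htr : tr _ (D.π i ≫ a ≫ D.π j) = tr _ (D.π j ≫ D.π i ≫ a) := by
      rw [← Category.assoc, tr_swap]
    by_cases hij : P i j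
    · have hne : j ≠ i := by
        rintro rfl
        exact hPd j hij
      rw [off i j hij, htr, ← Category.assoc, D.orth _ _ hne, zero_comp, map_zero, mul_zero,
        zero_smul]
    · obtain ⟨t, hit, htj⟩ := hP i j hij
      obtain ⟨κ, _, E, E', hE, hE'⟩ := sandwich (R.finite X)
      have s1 : ∑ k, (D.π i ≫ (a ≫ E k) ≫ D.π t) ≫ (D.π t ≫ E' k ≫ D.π j) =
          tr _ (D.π t) • (D.π i ≫ a ≫ D.π j) := by
        have e1 : ∀ k, (D.π i ≫ (a ≫ E k) ≫ D.π t) ≫ (D.π t ≫ E' k ≫ D.π j) =
            (D.π i ≫ a) ≫ (E k ≫ D.π t ≫ E' k) ≫ D.π j := by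
          intro k
          simp only [Category.assoc]
          rw [← Category.assoc (D.π t) (D.π t), D.idem]
        simp only [e1]
        rw [← Preadditive.comp_sum, ← Preadditive.sum_comp, hE, Linear.smul_comp,
          Category.id_comp, Linear.comp_smul, Category.assoc]
      have s2 : ∑ k, (D.π t ≫ E' k ≫ D.π j) ≫ (D.π i ≫ (a ≫ E k) ≫ D.π t) =
          tr _ (D.π j ≫ D.π i ≫ a) • D.π t := by
        have e1 : ∀ k, (D.π t ≫ E' k ≫ D.π j) ≫ (D.π i ≫ (a ≫ E k) ≫ D.π t) =
            D.π t ≫ (E' k ≫ (D.π j ≫ D.π i ≫ a) ≫ E k) ≫ D.π t := by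
          intro k
          simp only [Category.assoc]
        simp only [e1]
        rw [← Preadditive.comp_sum, ← Preadditive.sum_comp, hE', Linear.smul_comp,
          Category.id_comp, Linear.comp_smul, D.idem]
      have hpb : ∀ a, IsPar R false (D.π t ≫ a ≫ D.π j) := by
        intro a
        have h := D.isPar_off t j a
        have hx : xor (D.s t) (D.s j) = false := by rw [hpar t j]; simp
        rwa [hx] at h
      have h5 : der R false (tr _ (D.π t) • (D.π i ≫ a ≫ D.π j)) n -
          der R false (tr _ (D.π j ≫ D.π i ≫ a) • D.π t) n =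
          ∑ k, (der R false (D.π i ≫ (a ≫ E k) ≫ D.π t) n ≫
            der R false (D.π t ≫ E' k ≫ D.π j) n -
            der R false (D.π t ≫ E' k ≫ D.π j) n ≫
            der R false (D.π i ≫ (a ≫ E k) ≫ D.π t) n) := by
        rw [← derL_apply, ← derL_apply, ← map_sub, ← s1, ← s2, ← Finset.sum_sub_distrib, map_sum]
        refine Finset.sum_congr rfl fun k _ => ?_
        rw [derL_apply, der_comm R (s := false) (a := D.π i ≫ (a ≫ E k) ≫ D.π t) (hpb (E' k))]
      have h6 : q ≫ (der R false (tr _ (D.π t) • (D.π i ≫ a ≫ D.π j)) n -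
          der R false (tr _ (D.π j ≫ D.π i ≫ a) • D.π t) n) = 0 := by
        rw [h5, Preadditive.comp_sum]
        refine Finset.sum_eq_zero fun k _ => ?_
        rw [Preadditive.comp_sub, ← Category.assoc, off i t hit, zero_comp, ← Category.assoc,
          off t j htj, zero_comp, sub_zero]
      rw [Preadditive.comp_sub, der_smul, der_smul, Linear.comp_smul, Linear.comp_smul, hT,
        sub_eq_zero, smul_smul] at h6
      have h7 := congrArg (fun z => (tr _ (D.π t))⁻¹ • z) h6
      simp only [smul_smul, inv_mul_cancel₀ (hb0 t), one_smul] at h7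
      rw [h7, htr]
      congr 1
      have := hb0 t
      field_simp
  have e1 : a = ∑ i, ∑ j, D.π i ≫ a ≫ D.π j := by
    calc a = 𝟙 _ ≫ a ≫ 𝟙 _ := by rw [Category.id_comp, Category.comp_id]
      _ = _ := by
        rw [← D.sum, Preadditive.sum_comp]
        refine Finset.sum_congr rfl fun i _ => ?_
        rw [Preadditive.comp_sum, Preadditive.comp_sum]
  have e2 : der R false a n = ∑ i, ∑ j, der R false (D.π i ≫ a ≫ D.π j) n := by
    conv_lhs => rw [e1]
    rw [← derL_apply, map_sum]
    refine Finset.sum_congr rfl fun i _ => ?_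
    rw [map_sum]
    rfl
  have e3 : tr _ a = ∑ i, ∑ j, tr _ (D.π i ≫ a ≫ D.π j) := by
    conv_lhs => rw [e1]
    rw [map_sum]
    refine Finset.sum_congr rfl fun i _ => ?_
    rw [map_sum]
  rw [e2, e3, Preadditive.comp_sum]
  simp only [Preadditive.comp_sum, key, Finset.mul_sum, Finset.sum_smul]

/-- A projector of rank one. -/
lemma exists_rank_one {V : ModuleCat.{w} K} (hV : Module.Finite K V)
    (h : Module.finrank K V ≠ 0) :
    ∃ ρ : V ⟶ V, ρ ≫ ρ = ρ ∧ tr V ρ = 1 := by
  let b := Module.finBasis K V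
  let i : Fin (Module.finrank K V) := ⟨0, Nat.pos_of_ne_zero h⟩
  refine ⟨ModuleCat.ofHom ((b.coord i).smulRight (b i)), ?_, ?_⟩
  · apply ModuleCat.hom_ext
    apply LinearMap.ext
    intro v
    simp
  · rw [tr_apply]
    have h3 : LinearMap.trace K V ((b.coord i).smulRight (b i)) = 1 := by
      rw [LinearMap.trace_smulRight]
      simp
    exact h3

/-- The dimension divides `n` in the exceptional case. -/
lemma dvd_of_scal (hq : q ≠ 0) (hn : 1 ≤ n) (σ : Bool)
    (hε : R.par X = (if σ then (-1 : K) else 1) • 𝟙 _)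
    (h : ∀ a : R.H.obj X ⟶ R.H.obj X, q ≫ der R false a n =
      ((n : K) / Module.finrank K (R.H.obj X) * tr _ a) • q) :
    Module.finrank K (R.H.obj X) ∣ n := by
  classical
  have hn0 : (n : K) ≠ 0 := by
    have : n ≠ 0 := by omega
    exact_mod_cast this
  have hB : Module.finrank K (R.H.obj X) ≠ 0 := by
    intro h0
    have h1 := h (𝟙 _)
    rw [h0, Nat.cast_zero, div_zero, zero_mul, zero_smul, der_one, Linear.comp_smul,
      Category.comp_id] at h1
    exact (smul_ne_zero hn0 hq) h1
  obtain ⟨ρ, hρ, hρt⟩ := exists_rank_one (R.finite X) hB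
  have hBK : (Module.finrank K (R.H.obj X) : K) ≠ 0 := by exact_mod_cast hB
  by_cases hB1 : Module.finrank K (R.H.obj X) = 1
  · rw [hB1]
    exact one_dvd n
  have hρ0 : ρ ≠ 0 := by
    intro h0
    rw [h0, map_zero] at hρt
    exact zero_ne_one hρt
  have hρ1 : 𝟙 _ - ρ ≠ 0 := by
    intro h0
    have h1 := congrArg (tr _) h0
    rw [map_sub, hρt, map_zero, tr_apply, ModuleCat.hom_id, LinearMap.trace_id, sub_eq_zero] at h1
    exact hB1 (by exact_mod_cast h1)
  let D' : Dec R (𝟙 (R.H.obj X)) :=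
    { d := 2
      π := ![ρ, 𝟙 _ - ρ]
      x := fun _ => 1
      s := fun _ => σ
      idem := by
        intro j
        fin_cases j
        · exact hρ
        · change (𝟙 _ - ρ) ≫ (𝟙 _ - ρ) = 𝟙 _ - ρ
          rw [Preadditive.sub_comp, Preadditive.comp_sub, Preadditive.comp_sub, hρ,
            Category.comp_id, Category.id_comp, Category.comp_id, sub_self, sub_zero]
      orth := by
        intro i j hij
        fin_cases i <;> fin_cases j
        · exact absurd rfl hij
        · change ρ ≫ (𝟙 _ - ρ) = 0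
          rw [Preadditive.comp_sub, hρ, Category.comp_id, sub_self]
        · change (𝟙 _ - ρ) ≫ ρ = 0
          rw [Preadditive.sub_comp, hρ, Category.id_comp, sub_self]
        · exact absurd rfl hij
      sum := by
        rw [Fin.sum_univ_two]
        change ρ + (𝟙 _ - ρ) = 𝟙 _
        abel
      ne := by
        intro j
        fin_cases j
        · exact hρ0
        · exact hρ1
      comm := fun j => by rw [Category.comp_id, Category.id_comp]
      par_pi := fun j => by rw [hε, Linear.smul_comp, Category.id_comp]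
      pi_par := fun j => by rw [hε, Linear.comp_smul, Category.comp_id]
      nil := fun j => by
        rw [Category.comp_id, one_smul, sub_self]
        exact IsNilpotent.zero }
  obtain ⟨F⟩ := Fam.exists D' n
  obtain ⟨k, hk⟩ : ∃ k, q ≫ F.e k ≠ 0 := by
    by_contra hcon
    push Not at hcon
    apply hq
    calc q = q ≫ 𝟙 _ := by rw [Category.comp_id]
      _ = 0 := by
        rw [← F.sum, Preadditive.comp_sum]
        exact Finset.sum_eq_zero fun k _ => hcon k
  have h1 := congrArg (fun z => z ≫ F.e k) (h ρ)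
  have h2 : der R false ρ n ≫ F.e k = (F.m k (0 : Fin 2) : K) • F.e k := F.der_e k (0 : Fin 2)
  simp only [Category.assoc, h2, Linear.comp_smul, Linear.smul_comp, hρt, mul_one] at h1
  have h3 := smul_left_injective K hk h1
  refine ⟨F.m k (0 : Fin 2), ?_⟩
  have h4 : (n : K) = (Module.finrank K (R.H.obj X) * F.m k (0 : Fin 2) : ℕ) := by
    push_cast
    rw [h3]
    field_simp
  exact_mod_cast h4

/-- The main statement about the weights. -/
theorem core (hcomm : ∀ (s : Bool) (a : R.H.obj X ⟶ R.H.obj X), IsPar R s a →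
      der R s a n ≫ q = q ≫ der R s a n) (hq : q ≠ 0) (hn : 1 ≤ n)
    {G₀ : Type*} [CommGroupWithZero G₀]
    (N : K →*₀ G₀) (hx : ∀ j, D.x j ≠ 0) {c : G₀}
    (h1 : ∀ k, F.e k ≫ q ≠ 0 → N (F.lam k) = c) (h2 : ∀ k, q ≫ F.e k ≠ 0 → N (F.lam k) = c) :
    (∃ j₀, N (D.x j₀) ^ n = c ∧ ∀ j, N (D.x j) = N (D.x j₀)) ∨
      ((∀ i j, D.s i = D.s j) ∧ (∃ y, ∀ k, q ≫ F.e k ≠ 0 → F.lam k = y) ∧
        (∀ a : R.H.obj X ⟶ R.H.obj X, q ≫ der R false a n =
          ((n : K) / Module.finrank K (R.H.obj X) * tr _ a) • q) ∧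
        Module.finrank K (R.H.obj X) ∣ n) := by
  classical
  have hex : ∃ k, q ≫ F.e k ≠ 0 := by
    by_contra hcon
    push Not at hcon
    apply hq
    calc q = q ≫ 𝟙 _ := by rw [Category.comp_id]
      _ = 0 := by
        rw [← F.sum, Preadditive.comp_sum]
        exact Finset.sum_eq_zero fun k _ => hcon k
  obtain ⟨k₀, hk₀⟩ := hex
  have hsum : ∀ k, ∃ j, F.m k j ≠ 0 := by
    intro k
    by_contra hcon
    push Not at hcon
    have := F.sum_m k
    rw [Finset.sum_eq_zero fun j _ => hcon j] at this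
    omega
  by_cases hall : ∀ i j, N (D.x i) = N (D.x j)
  · left
    obtain ⟨j₀, -⟩ := hsum k₀
    refine ⟨j₀, ?_, fun j => hall j j₀⟩
    rw [← h2 k₀ hk₀, Fam.lam, map_prod]
    simp only [map_pow]
    rw [Finset.prod_congr rfl fun j _ => by rw [hall j j₀], Finset.prod_pow_eq_pow_sum,
      F.sum_m]
  right
  push Not at hall
  obtain ⟨i₀, j₀, hij₀⟩ := hall
  choose b hb hb' using fun j => tr_idem (R.finite X) (D.π j) (D.idem j)
  have hb0 : ∀ j, b j ≠ 0 := fun j h => D.ne j (hb' j h)
  have rel : ∀ i j, N (D.x i) ≠ N (D.x j) → ∀ k, q ≫ F.e k ≠ 0 →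
      (b j : K) * F.m k i = (if D.s i = D.s j then (1 : K) else -1) * (b i * F.m k j) := by
    intro i j hij k hk
    have e1 := kill' (off F hcomm N hx h1 h2 hij) (off F hcomm N hx h1 h2 (Ne.symm hij))
    have e2 := congrArg (fun z => z ≫ F.e k) e1
    simp only [Linear.smul_comp, Category.assoc, F.der_e, Linear.comp_smul, smul_smul, hb] at e2
    exact smul_left_injective K hk (by
      simp only
      rw [e2, mul_assoc])
  have relS : ∀ i j, N (D.x i) ≠ N (D.x j) → D.s i = D.s j → ∀ k, q ≫ F.e k ≠ 0 →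
      b j * F.m k i = b i * F.m k j := by
    intro i j hij hs k hk
    have e1 := rel i j hij k hk
    rw [if_pos hs, one_mul] at e1
    exact_mod_cast e1
  have relD : ∀ i j, N (D.x i) ≠ N (D.x j) → D.s i ≠ D.s j → ∀ k, q ≫ F.e k ≠ 0 →
      F.m k i = 0 := by
    intro i j hij hs k hk
    have e1 := rel i j hij k hk
    rw [if_neg hs, neg_one_mul, eq_neg_iff_add_eq_zero] at e1
    have e2 : b j * F.m k i + b i * F.m k j = 0 := by exact_mod_cast e1
    have e3 : b j * F.m k i = 0 := by omega
    rcases Nat.mul_eq_zero.mp e3 with h | h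
    · exact absurd h (hb0 j)
    · exact h
  have hpar : ∀ i j, D.s i = D.s j := by
    by_contra hcon
    push Not at hcon
    obtain ⟨z₁, z₂, hz⟩ := hcon
    obtain ⟨z, hmz⟩ := hsum k₀
    apply hmz
    -- an index of the opposite parity
    obtain ⟨v, hv⟩ : ∃ v, D.s z ≠ D.s v := by
      by_cases h : D.s z = D.s z₁
      · exact ⟨z₂, by rw [h]; exact hz⟩
      · exact ⟨z₁, h⟩
    by_cases hzv : N (D.x z) = N (D.x v)
    · obtain ⟨t, ht⟩ : ∃ t, N (D.x z) ≠ N (D.x t) := by
        by_cases h : N (D.x z) = N (D.x i₀)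
        · exact ⟨j₀, by rw [h]; exact hij₀⟩
        · exact ⟨i₀, h⟩
      by_cases hs : D.s z = D.s t
      · have e1 : F.m k₀ t = 0 := relD t v (by rw [← hzv]; exact Ne.symm ht)
          (by rw [← hs]; exact hv) k₀ hk₀
        have e2 := relS z t ht hs k₀ hk₀
        rw [e1, mul_zero] at e2
        rcases Nat.mul_eq_zero.mp e2 with h | h
        · exact absurd h (hb0 t)
        · exact h
      · exact relD z t ht hs k₀ hk₀
    · exact relD z v hzv hv k₀ hk₀
  refine ⟨hpar, ?_⟩
  have rel2 : ∀ i j k, q ≫ F.e k ≠ 0 → b j * F.m k i = b i * F.m k j := by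
    intro i j k hk
    by_cases hij : N (D.x i) = N (D.x j)
    · obtain ⟨t, ht⟩ : ∃ t, N (D.x i) ≠ N (D.x t) := by
        by_cases h : N (D.x i) = N (D.x i₀)
        · exact ⟨j₀, by rw [h]; exact hij₀⟩
        · exact ⟨i₀, h⟩
      have e1 := relS i t ht (hpar _ _) k hk
      have e2 := relS j t (by rw [← hij]; exact ht) (hpar _ _) k hk
      apply Nat.eq_of_mul_eq_mul_left (Nat.pos_of_ne_zero (hb0 t))
      calc b t * (b j * F.m k i) = b j * (b t * F.m k i) := by ring
        _ = b j * (b i * F.m k t) := by rw [e1]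
        _ = b i * (b j * F.m k t) := by ring
        _ = b i * (b t * F.m k j) := by rw [e2]
        _ = b t * (b i * F.m k j) := by ring
    · exact relS i j hij (hpar _ _) k hk
  have hB : ∀ k, q ≫ F.e k ≠ 0 → ∀ i, (∑ j, b j) * F.m k i = b i * n := by
    intro k hk i
    rw [Finset.sum_mul, Finset.sum_congr rfl fun j _ => rel2 i j k hk, ← Finset.mul_sum, F.sum_m]
  have hB0 : ∑ j, b j ≠ 0 := by
    intro h
    rw [Finset.sum_eq_zero_iff] at h
    exact hb0 i₀ (h i₀ (Finset.mem_univ _))
  have hfin : Module.finrank K (R.H.obj X) = ∑ j, b j := by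
    have h1 : tr _ (𝟙 (R.H.obj X)) = ∑ j, tr _ (D.π j) := by rw [← D.sum, map_sum]
    rw [tr_apply, ModuleCat.hom_id, LinearMap.trace_id] at h1
    simp only [hb] at h1
    exact_mod_cast h1
  have hBK : ((∑ j, b j : ℕ) : K) ≠ 0 := by exact_mod_cast hB0
  have hsc : ∀ a : R.H.obj X ⟶ R.H.obj X, q ≫ der R false a n =
      ((n : K) / Module.finrank K (R.H.obj X) * tr _ a) • q := by
    intro a
    refine scal (P := fun i j => N (D.x i) ≠ N (D.x j)) hpar (fun i j hij a => ?_)
      (fun i j hij => ?_) (fun i h => h rfl) (fun j => by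
        rw [hb]
        exact_mod_cast hb0 j) (fun t => ?_) a
    · have h := off F hcomm N hx h1 h2 hij a
      have hxx : xor (D.s i) (D.s j) = false := by rw [hpar i j]; simp
      rwa [hxx] at h
    · rw [not_not] at hij
      by_cases h : N (D.x i) = N (D.x i₀)
      · refine ⟨j₀, by rw [h]; exact hij₀, ?_⟩
        rw [← hij, h]
        exact Ne.symm hij₀
      · refine ⟨i₀, h, ?_⟩
        rw [← hij]
        exact Ne.symm h
    · have e1 : q ≫ der R false (D.π t) n = ∑ k, (q ≫ der R false (D.π t) n) ≫ F.e k := by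
        rw [← Preadditive.comp_sum, F.sum, Category.comp_id]
      have e2 : ((n : K) / Module.finrank K (R.H.obj X) * tr _ (D.π t)) • q =
          ∑ k, ((n : K) / Module.finrank K (R.H.obj X) * tr _ (D.π t)) • (q ≫ F.e k) := by
        rw [← Finset.smul_sum, ← Preadditive.comp_sum, F.sum, Category.comp_id]
      rw [e1, e2]
      refine Finset.sum_congr rfl fun k _ => ?_
      rw [Category.assoc, F.der_e, Linear.comp_smul]
      by_cases hk : q ≫ F.e k = 0
      · rw [hk, smul_zero, smul_zero]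
      · congr 1
        have e3 := hB k hk t
        have e4 : ((∑ j, b j : ℕ) : K) * F.m k t = b t * n := by exact_mod_cast e3
        rw [hfin, hb, div_mul_eq_mul_div, eq_div_iff hBK]
        linear_combination e4
  refine ⟨⟨F.lam k₀, fun k hk => ?_⟩, hsc, ?_⟩
  · rw [Fam.lam, Fam.lam]
    refine Finset.prod_congr rfl fun j _ => ?_
    have e1 := hB k hk j
    have e2 := hB k₀ hk₀ j
    have e3 : F.m k j = F.m k₀ j := Nat.eq_of_mul_eq_mul_left (Nat.pos_of_ne_zero hB0)
      (e1.trans e2.symm)
    rw [e3]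
  · refine dvd_of_scal hq hn (D.s i₀) ?_ hsc
    have e1 : R.par X = ∑ j, D.π j ≫ R.par X := by
      rw [← Preadditive.sum_comp, D.sum, Category.id_comp]
    rw [e1]
    simp only [D.pi_par]
    rw [Finset.sum_congr rfl fun l _ => by rw [hpar l i₀], ← Finset.smul_sum, D.sum]

end

end Pool.Agent.K3h43.NWS
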